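import Pool.Agent.Y655.QK.PAR
import Pool.Agent.Y667.QK.StmR

/-!
# Project QK (helper667), part PARE: the parity for the twist by `t`, `f` not dividing `t`

Adapted from `Pool/Agent/Y655/QK/PAR.lean` (helper655).
-/

set_option autoImplicit false

namespace Pool.Agent.Y154.QK

open Finset Pool.Agent.W262.RK Pool.Agent.W307.RT Pool.Agent.W307.RS Pool.Agent.W307.SE
  Pool.Agent.W307.FK Pool.Agent.Y667.RP Pool.Agent.Y667.RZ Pool.Agent.Y655.RZ

open Pool.Agent.Y667.QK (twt Lt Vt AdT Flip RC)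

open Pool.Agent.Y655.QK (L2 xcL2 card_L2 qbL2 Lt_q Lt_ne xcLt jac_at jac_two jac_neg)

open NumberTheorySymbols jacobiSym

lemma card_L02 : Nat.card {x : XX // LX L0 x ∧ LX L2 x} = 1 := by
  have key : ∀ (P : XX → Prop) [DecidablePred P], Fintype.card {x : XX // P x} = 1 →
      Nat.card {x : XX // P x} = 1 := by
    intro P _ h
    rw [Nat.card_eq_fintype_card, h]
  unfold Pool.Agent.Y655.RZ.LX L0 L2
  exact key _ (by decide)

/-- more primes, with the trivial condition -/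
def Ls (t : ℕ) (L : ℕ → Bool → Bool → Bool → Bool → Prop) (p : ℕ) (v w h g : Bool) : Prop :=
  if p ∣ t then L0 v w h g else L p v w h g

lemma Ls_t {t : ℕ} (L : ℕ → Bool → Bool → Bool → Bool → Prop) {p : ℕ} (hp : p ∣ t) :
    Ls t L p = L0 := by
  funext v w x g
  unfold Ls
  rw [if_pos hp]

lemma Ls_ne {t : ℕ} (L : ℕ → Bool → Bool → Bool → Bool → Prop) {p : ℕ} (hp : ¬ p ∣ t) :
    Ls t L p = L p := by
  funext v w x g
  unfold Ls
  rw [if_neg hp]

lemma xcLs {t : ℕ} {L : ℕ → Bool → Bool → Bool → Bool → Prop} (hL : ∀ p, XC (L p)) (p : ℕ) :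
    XC (Ls t L p) := by
  by_cases h : p ∣ t
  · rw [Ls_t L h]
    exact xcL0
  · rw [Ls_ne L h]
    exact hL p

/-- more primes, with the trivial condition: the same classes -/
lemma VG_Ls {t m : ℕ} (ht : t ≠ 0) (hto : Odd t) (hm : m ≠ 0) (hc : Nat.Coprime t m)
    (L : ℕ → Bool → Bool → Bool → Bool → Prop) : VG m L = VG (t * m) (Ls t L) := by
  have hcm : ∀ q : ℕ, q.Prime → q ∣ t → ¬ q ∣ m := by
    intro q hq h h'
    have h2 := Nat.dvd_gcd h h'
    rw [hc] at h2
    exact hq.one_lt.ne' (Nat.dvd_one.1 h2)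
  have h2t : ∀ q : ℕ, q.Prime → q ∣ t → ¬ q ∣ 2 := by
    intro q hq h h'
    rw [(Nat.prime_dvd_prime_iff_eq hq Nat.prime_two).1 h'] at h
    exact (Nat.not_even_iff_odd.2 hto) (even_iff_two_dvd.2 h)
  ext d
  constructor
  · rintro ⟨h1, h2, h3, h4, h5, h6, h7⟩
    refine ⟨h1, h2, h3, h4, fun q hq h => (h5 q hq h).mul_left _, fun q hq h => ?_, ?_⟩
    · rw [mul_left_comm]
      exact (h6 q hq h).mul_left _
    · intro p hp
      have hpp := Nat.prime_of_mem_primeFactors hp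
      have hpd := Nat.dvd_of_mem_primeFactors hp
      unfold Ls
      by_cases h : p ∣ t
      · rw [if_pos h]
        constructor
        · unfold dv
          rw [decide_eq_false_iff_not]
          exact fun hd => hcm p hpp h (h5 p hpp hd)
        · unfold dv
          rw [decide_eq_false_iff_not]
          intro hd
          rcases (hpp.dvd_mul).1 (h6 p hpp hd) with h' | h'
          · exact h2t p hpp h h'
          · exact hcm p hpp h h'
      · rw [if_neg h]
        exact h7 p (Nat.mem_primeFactors.2 ⟨hpp, ((hpp.dvd_mul).1 hpd).resolve_left h, hm⟩)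
  · rintro ⟨h1, h2, h3, h4, h5, h6, h7⟩
    have h8 : ∀ q : ℕ, q.Prime → q ∣ t → ¬ (q : ℤ) ∣ d.1 ∧ ¬ (q : ℤ) ∣ d.2 := by
      intro q hq hqt
      have h9 := h7 q (Nat.mem_primeFactors.2 ⟨hq, hqt.mul_right _, mul_ne_zero ht hm⟩)
      unfold Ls at h9
      rw [if_pos hqt] at h9
      obtain ⟨h10, h11⟩ := h9
      unfold dv at h10 h11
      rw [decide_eq_false_iff_not] at h10 h11
      exact ⟨h10, h11⟩
    refine ⟨h1, h2, h3, h4, ?_, ?_, ?_⟩
    · intro q hq hd
      rcases (hq.dvd_mul).1 (h5 q hq hd) with h | h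
      · exact absurd hd (h8 q hq h).1
      · exact h
    · intro q hq hd
      have h11 := h6 q hq hd
      rw [mul_left_comm] at h11
      rcases (hq.dvd_mul).1 h11 with h | h
      · exact absurd hd (h8 q hq h).2
      · exact h
    · intro p hp
      have hpp := Nat.prime_of_mem_primeFactors hp
      have hpd := Nat.dvd_of_mem_primeFactors hp
      have hne : ¬ p ∣ t := fun h => hcm p hpp h hpd
      have h12 := h7 p (Nat.mem_primeFactors.2 ⟨hpp, hpd.mul_left _, mul_ne_zero ht hm⟩)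
      unfold Ls at h12
      rwa [if_neg hne] at h12

/-- the signs of the twist -/
lemma twt_dec {t m : ℕ} {E : Finset ℕ} {p : ℕ} (hp : p ∈ m.primeFactors) :
    (decide (p ∈ E) = decide (p ∈ twt t m E)) ↔ ¬ jacobiSym t p = -1 := by
  rw [decide_eq_decide]
  unfold Pool.Agent.Y667.QK.twt
  rw [mem_filter]
  by_cases h1 : jacobiSym t p = -1 <;> by_cases h3 : p ∈ E <;> simp [h1, h3, hp]

theorem PARE (hLAG : St_LAG) : Pool.Agent.Y667.QK.St_PARE := by
  classical
  intro f β t s hF hT hs hodd hcop hrel h0 h1 hRC hσ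
  obtain ⟨m, hm⟩ : ∃ m, m = ∏ j, s j := ⟨_, rfl⟩
  obtain ⟨E, hE⟩ : ∃ E, E = sgF (s 0) (s 1) (∏ j, s j) := ⟨_, rfl⟩
  rw [← hE]
  clear hE
  have hf := hF.pr
  have hft0 : f * t ≠ 0 := hT.sqf.ne_zero
  have ht0 : t ≠ 0 := right_ne_zero_of_mul hft0
  have hm0 : m ≠ 0 := by rw [hm]; exact hs.ne_zero
  have hsm : Squarefree m := by rw [hm]; exact hs
  have hst : Squarefree t := hT.sqf.squarefree_of_dvd (Nat.dvd_mul_left _ _)
  have hom : Odd m := by rw [hm]; exact hodd
  have hcft : Nat.Coprime (f * t) m := by rw [hm]; exact hcop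
  have hcm : Nat.Coprime t m := hcft.coprime_dvd_left (Nat.dvd_mul_left _ _)
  have hoft : Odd (f * t) := by
    rw [← Nat.not_even_iff_odd]
    intro h
    have h2 := hT.m8 2 (Nat.mem_primeFactors.2 ⟨Nat.prime_two, even_iff_two_dvd.1 h, hft0⟩)
    omega
  have hot : Odd t := Odd.of_dvd_nat hoft (Nat.dvd_mul_left _ _)
  have hft : ¬ f ∣ t := by
    intro h
    have h2 := hT.sqf f (Nat.mul_dvd_mul_left f h)
    exact hf.one_lt.ne' (Nat.isUnit_iff.1 h2)
  have hqm : ∀ q : ℕ, q.Prime → q ∣ t → ¬ q ∣ m := by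
    intro q hq h h'
    have h2 := Nat.dvd_gcd h h'
    rw [hcm] at h2
    exact hq.one_lt.ne' (Nat.dvd_one.1 h2)
  have hqf : ∀ q : ℕ, q ∣ t → q ≠ f := by
    rintro q h rfl
    exact hft h
  have ht8 : ∀ q : ℕ, q.Prime → q ∣ t → q % 8 = 1 := fun q hq h =>
    hT.m8 q (Nat.mem_primeFactors.2 ⟨hq, h.mul_left _, hft0⟩)
  obtain ⟨M, hM⟩ : ∃ M, M = t * m := ⟨_, rfl⟩
  have hM0 : M ≠ 0 := by rw [hM]; exact mul_ne_zero ht0 hm0
  have hMs : Squarefree M := by
    rw [hM, Nat.squarefree_mul hcm]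
    exact ⟨hst, hsm⟩
  have hMo : Odd M := by
    rw [hM]
    exact hot.mul hom
  have hS : HS M := by
    intro σ h
    obtain ⟨p, hp, hd, hJ⟩ := hσ σ h
    exact ⟨p, hp, by rw [hM, hm]; exact hd.mul_left _, hJ⟩
  -- the linear data
  have hx0s : Squarefree ((s 0 : ℤ) * s 1) := by
    have : Squarefree (s 0 * s 1) := hs.squarefree_of_dvd ⟨s 2, by rw [prod3]⟩
    have h2 := Int.squarefree_natCast.2 this
    push_cast at h2
    exact h2
  have hy0s : Squarefree (2 * (s 0 : ℤ) * s 2) := by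
    have k1 : Squarefree (s 0 * s 2) := hs.squarefree_of_dvd ⟨s 1, by rw [prod3]; ring⟩
    have k2 : Odd (s 0 * s 2) := Odd.of_dvd_nat hodd ⟨s 1, by rw [prod3]; ring⟩
    have k3 : Squarefree (2 * (s 0 * s 2)) := by
      rw [Nat.squarefree_mul ((Nat.coprime_two_left).2 k2)]
      exact ⟨Nat.prime_two.prime.irreducible.squarefree, k1⟩
    have k4 := Int.squarefree_natCast.2 k3
    push_cast at k4
    rwa [← mul_assoc] at k4
  have hx0p : 0 < ((s 0 : ℤ) * s 1) := by
    have k0 : (0 : ℤ) < s 0 := by omega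
    have k1 : (0 : ℤ) < s 1 := by omega
    exact mul_pos k0 k1
  have hx08 : ((s 0 : ℤ) * s 1) % 8 = 1 := by
    have k0 : (s 0 : ℤ) % 8 = 1 := by omega
    have k1 : (s 1 : ℤ) % 8 = 1 := by omega
    rw [Int.mul_emod, k0, k1]
    norm_num
  have hxM : ∀ q : ℕ, q.Prime → (q : ℤ) ∣ ((s 0 : ℤ) * s 1) → q ∣ M := by
    intro q hq h
    have h' : q ∣ s 0 * s 1 := by exact_mod_cast h
    rw [hM, hm, prod3]
    exact (h'.mul_right _).mul_left _
  have hyM : ∀ q : ℕ, q.Prime → (q : ℤ) ∣ (2 * (s 0 : ℤ) * s 2) → q ∣ 2 * M := by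
    intro q hq h
    have h' : q ∣ 2 * s 0 * s 2 := by exact_mod_cast h
    rw [hM, hm, prod3]
    exact h'.trans ⟨t * s 1, by ring⟩
  have hmemM : ∀ p ∈ M.primeFactors, p.Prime ∧ (p ∣ t ∧ p % 8 = 1 ∨
      ¬ p ∣ t ∧ p ∈ m.primeFactors) := by
    intro p hp
    have hpp := Nat.prime_of_mem_primeFactors hp
    refine ⟨hpp, ?_⟩
    have hpd := Nat.dvd_of_mem_primeFactors hp
    rw [hM] at hpd
    by_cases h : p ∣ t
    · exact Or.inl ⟨h, ht8 p hpp h⟩
    · exact Or.inr ⟨h, Nat.mem_primeFactors.2 ⟨hpp, ((hpp.dvd_mul).1 hpd).resolve_left h, hm0⟩⟩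
  have hsm1 : ∀ p : ℕ, p.Prime → p ∣ t → (p : ℤ) ∣ (s 1 : ℤ) - (-1 : ℤ) := by
    intro p hpp hpd
    obtain ⟨-, -, r2⟩ := hRC p (Nat.mem_primeFactors.2 ⟨hpp, hpd.mul_left _, hft0⟩)
    have h2 := Nat.dvd_of_mod_eq_zero (r2 (hqf p hpd))
    have h3 := Int.natCast_dvd_natCast.2 h2
    push_cast at h3
    rwa [sub_neg_eq_add]
  have hs01 : ∀ p : ℕ, p.Prime → p ∣ t → s 0 % p = 1 := fun p hpp hpd =>
    (hRC p (Nat.mem_primeFactors.2 ⟨hpp, hpd.mul_left _, hft0⟩)).1
  -- the data at the primes of the twist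
  have hdat : ∀ p : ℕ, p.Prime → p ∣ t → p % 8 = 1 → sg0 p (-1) = false ∧
      dv p (2 * s 0 * s 2) = false ∧ dv p (s 0 * s 1) = false ∧ sgn p (s 0 * s 1) = false ∧
      sgn p (2 * s 0 * s 2) = false := by
    intro p hpp hpd hp8
    have hpm := hqm p hpp hpd
    have hpi := Nat.prime_iff_prime_int.1 hpp
    have hp2 : p ≠ 2 := by rintro rfl; omega
    have n0 : ¬ (p : ℤ) ∣ (s 0 : ℤ) := fun h => hpm (by
      rw [hm]
      exact (Int.natCast_dvd_natCast.1 h).trans (dvd_prod_of_mem s (mem_univ 0)))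
    have n1 : ¬ (p : ℤ) ∣ (s 1 : ℤ) := fun h => hpm (by
      rw [hm]
      exact (Int.natCast_dvd_natCast.1 h).trans (dvd_prod_of_mem s (mem_univ 1)))
    have n2 : ¬ (p : ℤ) ∣ (s 2 : ℤ) := fun h => hpm (by
      rw [hm]
      exact (Int.natCast_dvd_natCast.1 h).trans (dvd_prod_of_mem s (mem_univ 2)))
    have n3 : ¬ (p : ℤ) ∣ 2 := fun h => hp2 (by
      have h2 : p ∣ 2 := by exact_mod_cast h
      exact (Nat.prime_dvd_prime_iff_eq hpp Nat.prime_two).1 h2)
    have nx : ¬ (p : ℤ) ∣ ((s 0 : ℤ) * s 1) := fun h => (hpi.dvd_or_dvd h).elim n0 n1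
    have ny : ¬ (p : ℤ) ∣ (2 * (s 0 : ℤ) * s 2) := fun h =>
      (hpi.dvd_or_dvd h).elim (fun h => (hpi.dvd_or_dvd h).elim n3 n0) n2
    have k1 := hsm1 p hpp hpd
    have r0 := hs01 p hpp hpd
    refine ⟨?_, ?_, ?_, ?_, ?_⟩
    · unfold sg0
      rw [decide_eq_false_iff_not, jac_neg hp8]
      norm_num
    · unfold dv; rw [decide_eq_false_iff_not]; exact ny
    · unfold dv; rw [decide_eq_false_iff_not]; exact nx
    · rw [sgn_ndvd hpp nx]
      unfold sg0
      rw [decide_eq_false_iff_not]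
      rw [(jac_at hrel hp8 r0 k1).1, jac_neg hp8]
      norm_num
    · rw [sgn_ndvd hpp ny]
      unfold sg0
      rw [decide_eq_false_iff_not]
      rw [(jac_at hrel hp8 r0 k1).2.1]
      have h2 : (1 - (-1) : ℤ) = 2 := by norm_num
      rw [h2, jac_two hp8]
      norm_num
  have hQA := QQ_AM hMo hx0s hx0p hx08 hy0s hxM hyM
  have hfA := finrank_AM hMs hMo hS hx0s hx0p hx08 hy0s hxM hyM
  obtain ⟨La, hLa⟩ : ∃ La, La = Ls t (LF s E) := ⟨_, rfl⟩
  obtain ⟨Lb, hLb⟩ : ∃ Lb, Lb = Lt f t s E := ⟨_, rfl⟩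
  have xa : ∀ p, XC (La p) := by
    rw [hLa]
    exact xcLs (xcLF s E)
  have xb : ∀ p, XC (Lb p) := by
    rw [hLb]
    exact xcLt f t s E
  -- the values of the two conditions
  have vat : ∀ q : ℕ, q ∣ t → La q = L0 := by
    intro q h
    rw [hLa]
    exact Ls_t _ h
  have vbt : ∀ q : ℕ, q ∣ t → Lb q = L2 := by
    intro q h
    rw [hLb]
    exact Lt_q s E h (hqf q h)
  have vam : ∀ q : ℕ, ¬ q ∣ t → La q = LF s E q := by
    intro q h
    rw [hLa]
    exact Ls_ne _ h
  have vbm : ∀ q : ℕ, ¬ q ∣ t → Lb q = LF s (twt t (∏ j, s j) E) q := by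
    intro q h
    rw [hLb]
    exact Lt_ne s E h
  have hQW := QQ_WL (N := M.primeFactors) (e := fun p => sg0 p (-1))
    (a := fun p => sgn p (2 * s 0 * s 2)) (b := fun p => dv p (2 * s 0 * s 2))
    (c := fun p => dv p (s 0 * s 1)) (d := fun p => sgn p (s 0 * s 1)) (L := La)
    (hL := xa) (by
      intro p hp v w h g hL
      obtain ⟨hpp, ⟨hpd, hp8⟩ | ⟨hpd, hpm⟩⟩ := hmemM p hp
      · obtain ⟨t1, t2, t3, t4, t5⟩ := hdat p hpp hpd hp8
        rw [vat p hpd] at hL
        exact qbL0 hL t2 t3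
      · rw [vam p hpd] at hL
        exact loc_iso hs hodd hrel _ p (by rw [← hm]; exact hpm) v w h g hL)
  have hQW' := QQ_WL (N := M.primeFactors) (e := fun p => sg0 p (-1))
    (a := fun p => sgn p (2 * s 0 * s 2)) (b := fun p => dv p (2 * s 0 * s 2))
    (c := fun p => dv p (s 0 * s 1)) (d := fun p => sgn p (s 0 * s 1)) (L := Lb)
    (hL := xb) (by
      intro p hp v w h g hL
      obtain ⟨hpp, ⟨hpd, hp8⟩ | ⟨hpd, hpm⟩⟩ := hmemM p hp
      · obtain ⟨t1, t2, t3, t4, t5⟩ := hdat p hpp hpd hp8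
        rw [vbt p hpd] at hL
        exact qbL2 hL t2 t3 t5 t4 t1
      · rw [vbm p hpd] at hL
        exact loc_iso hs hodd hrel _ p (by rw [← hm]; exact hpm) v w h g hL)
  have hfW : Module.finrank (ZMod 2) (WL M.primeFactors La xa) = 2 * M.primeFactors.card := by
    apply finrank_of_card
    rw [card_WL, prod_congr rfl (g := fun _ => 4), prod_const, pow_mul]
    · norm_num
    intro p hp
    obtain ⟨hpp, ⟨hpd, hp8⟩ | ⟨hpd, hpm⟩⟩ := hmemM p hp
    · rw [vat p hpd]
      exact card_L0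
    · obtain ⟨j, hj⟩ := exists_cls hs (p := p) (by rw [← hm]; exact hpm)
      rw [vam p hpd, hj]
      exact card_LR j _
  have hfW' : Module.finrank (ZMod 2) (WL M.primeFactors Lb xb) = 2 * M.primeFactors.card := by
    apply finrank_of_card
    rw [card_WL, prod_congr rfl (g := fun _ => 4), prod_const, pow_mul]
    · norm_num
    intro p hp
    obtain ⟨hpp, ⟨hpd, hp8⟩ | ⟨hpd, hpm⟩⟩ := hmemM p hp
    · rw [vbt p hpd]
      exact card_L2
    · obtain ⟨j, hj⟩ := exists_cls hs (p := p) (by rw [← hm]; exact hpm)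
      rw [vbm p hpd, hj]
      exact card_LR j _
  -- the intersection of the two local conditions
  obtain ⟨k, hk⟩ : ∃ k : ℕ → ℕ, k = fun p => if p ∣ t then 0 else
    if jacobiSym t p = -1 then 1 else 2 := ⟨_, rfl⟩
  have hfI : Module.finrank (ZMod 2) (WL M.primeFactors La xa ⊓ WL M.primeFactors Lb xb :
        Submodule (ZMod 2) (M.primeFactors → XX)) = ∑ p ∈ M.primeFactors, k p := by
    apply finrank_of_card
    rw [inf_WL, card_WL, ← prod_pow_eq_pow_sum]
    apply prod_congr rfl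
    intro p hp
    rw [hk]
    obtain ⟨hpp, ⟨hpd, hp8⟩ | ⟨hpd, hpm⟩⟩ := hmemM p hp
    · simp only [if_pos hpd, pow_zero]
      rw [vat p hpd, vbt p hpd]
      exact card_L02
    · obtain ⟨j, hj⟩ := exists_cls hs (p := p) (by rw [← hm]; exact hpm)
      simp only [if_neg hpd]
      rw [vam p hpd, vbm p hpd, hj, hj]
      have h2 := card_LR2 j (decide (p ∈ E)) (decide (p ∈ twt t (∏ j, s j) E))
      have h3 := twt_dec (t := t) (E := E) hpm
      rw [hm] at h3
      refine (show _ = _ from h2).trans ?_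
      by_cases hJ : jacobiSym t p = -1
      · rw [if_pos hJ, if_neg (fun h => (h3.1 h) hJ)]
      · rw [if_neg hJ, if_pos (h3.2 hJ)]
  have ht4 : t % 4 = 1 := by
    have h2 : ∀ n : ℕ, n ≠ 0 → (∀ q : ℕ, q.Prime → q ∣ n → q % 8 = 1) → n % 8 = 1 := by
      intro n
      induction n using Nat.recOnMul with
      | zero => intro h; exact absurd rfl h
      | one => intro _ _; rfl
      | prime p hp => intro _ h; exact h p hp dvd_rfl
      | mul a b iha ihb =>
        intro hab h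
        rw [Nat.mul_mod, iha (left_ne_zero_of_mul hab) (fun q hq hd => h q hq (hd.mul_right _)),
          ihb (right_ne_zero_of_mul hab) (fun q hq hd => h q hq (hd.mul_left _))]
    have := h2 t ht0 ht8
    omega
  have hjf : ∏ p ∈ m.primeFactors, J((t : ℤ) | p) = 1 := by
    rw [jac_sqf hsm, jacobiSym.quadratic_reciprocity_one_mod_four ht4 hom, ← jac_sqf hst]
    apply prod_eq_one
    intro q hq
    have hqp := Nat.prime_of_mem_primeFactors hq
    have hqd := Nat.dvd_of_mem_primeFactors hq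
    have h2 := (jac_at hrel (ht8 q hqp hqd) (hs01 q hqp hqd) (hsm1 q hqp hqd)).2.2
    have h3 : ((m : ℕ) : ℤ) = (s 0 : ℤ) * s 1 * s 2 := by
      rw [hm, prod3]
      push_cast
      ring
    have h4 : (1 - (-1) : ℤ) = 2 := by norm_num
    rw [h3, h2, h4, jac_neg (ht8 q hqp hqd), jac_two (ht8 q hqp hqd)]
    norm_num
  have hNc : M.primeFactors = t.primeFactors ∪ m.primeFactors := by
    rw [hM, Nat.primeFactors_mul ht0 hm0]
  have hdisj : Disjoint t.primeFactors m.primeFactors := hcm.disjoint_primeFactors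
  have hevI : Even (∑ p ∈ M.primeFactors, k p) := by
    have h2 : (-1 : ℤ) ^ (∑ p ∈ M.primeFactors, k p) = 1 := by
      rw [← prod_pow_eq_pow_sum, hNc, prod_union hdisj]
      have h3 : ∏ p ∈ t.primeFactors, (-1 : ℤ) ^ k p = 1 := by
        apply prod_eq_one
        intro p hp
        rw [hk]
        simp only [if_pos (Nat.dvd_of_mem_primeFactors hp), pow_zero]
      rw [h3, one_mul]
      refine Eq.trans (prod_congr rfl ?_) hjf
      intro p hp
      have hpp := Nat.prime_of_mem_primeFactors hp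
      have hpd : ¬ p ∣ t := fun h => hqm p hpp h (Nat.dvd_of_mem_primeFactors hp)
      rw [hk]
      simp only [if_neg hpd]
      by_cases hJ : jacobiSym t p = -1
      · rw [if_pos hJ, hJ]; norm_num
      · rw [if_neg hJ]
        have hg : ((t : ℕ) : ℤ).gcd p = 1 := by
          have : Nat.Coprime t p := ((hpp.coprime_iff_not_dvd).2 hpd).symm
          exact this
        rcases jacobiSym.eq_one_or_neg_one hg with h | h
        · rw [h]; norm_num
        · exact absurd h hJ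
    rcases Nat.even_or_odd (∑ p ∈ M.primeFactors, k p) with h | h
    · exact h
    · rw [h.neg_one_pow] at h2
      norm_num at h2
  have key := hLAG (M.primeFactors → XX) (BB M.primeFactors (fun p => b2z (sg0 p (-1))))
    (QQ M.primeFactors (fun p => b2z (sg0 p (-1))) (fun p => b2z (sgn p (2 * s 0 * s 2)))
      (fun p => b2z (dv p (2 * s 0 * s 2))) (fun p => b2z (dv p (s 0 * s 1)))
      (fun p => b2z (sgn p (s 0 * s 1)))) (2 * M.primeFactors.card) (AM M)
    (WL M.primeFactors La xa) (WL M.primeFactors Lb xb)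
    (by rw [finrank_V]; ring) (BB_nondeg _ _) (QQ_add _ _ _ _ _ _) hQA hQW hQW' hfA hfW hfW'
  refine ⟨Module.finrank (ZMod 2) (AM M ⊓ WL M.primeFactors La xa :
      Submodule (ZMod 2) (M.primeFactors → XX)),
    Module.finrank (ZMod 2) (AM M ⊓ WL M.primeFactors Lb xb :
      Submodule (ZMod 2) (M.primeFactors → XX)), ?_, ?_, ?_⟩
  · have h2 : V0 s E = VG M La := by
      show VG (∏ j, s j) (LF s E) = VG M La
      rw [← hm, hLa, VG_Ls ht0 hot hm0 hcm, ← hM]
    rw [h2, ← card_inf hMo hS La xa, card_sub]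
  · have h2 : Vt f t s E = VG M Lb := by
      show VG (t * ∏ j, s j) (Lt f t s E) = VG M Lb
      rw [← hm, hLb, ← hM]
    rw [h2, ← card_inf hMo hS Lb xb, card_sub]
  · rw [hfI] at key
    have h2 : Even (2 * M.primeFactors.card) := even_two_mul _
    rw [Nat.even_add, Nat.even_add] at key
    tauto

end Pool.Agent.Y154.QK
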